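import Pool.Agent.HSG.Max

/-!
# The map from the polynomial ring onto the associated graded ring
-/

set_option autoImplicit false

namespace Pool.Agent.HSG

universe u

open MvPolynomial

section rees

variable {R : Type u} [CommRing R] (I : Ideal R)

/-- a homogeneous element of the Rees algebra -/
noncomputable def reesMon (d : ℕ) (a : R) (ha : a ∈ I ^ d) : reesAlgebra I :=
  ⟨Polynomial.monomial d a, reesAlgebra.monomial_mem.2 ha⟩

/-- the elements of the Rees algebra with coefficients in `I ^ (d + 1)` -/
def bigIdeal : Ideal (reesAlgebra I) where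
  carrier := {F | ∀ d, (F : Polynomial R).coeff d ∈ I ^ (d + 1)}
  zero_mem' := fun d => by
    show (0 : Polynomial R).coeff d ∈ I ^ (d + 1)
    rw [Polynomial.coeff_zero]
    exact Ideal.zero_mem _
  add_mem' := by
    intro F G hF hG d
    show ((F : Polynomial R) + (G : Polynomial R)).coeff d ∈ I ^ (d + 1)
    rw [Polynomial.coeff_add]
    exact Ideal.add_mem _ (hF d) (hG d)
  smul_mem' := by
    intro F G hG d
    show ((F : Polynomial R) * (G : Polynomial R)).coeff d ∈ I ^ (d + 1)
    rw [Polynomial.coeff_mul]
    refine Ideal.sum_mem _ fun p hp => ?_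
    rw [Finset.HasAntidiagonal.mem_antidiagonal] at hp
    have h1 : (F : Polynomial R).coeff p.1 ∈ I ^ p.1 := (mem_reesAlgebra_iff I _).1 F.2 p.1
    have h2 := hG p.2
    have h3 := Ideal.mul_mem_mul h1 h2
    rw [← pow_add] at h3
    have h4 : p.1 + (p.2 + 1) = d + 1 := by omega
    rwa [h4] at h3

theorem reesMon_mem' (d : ℕ) (a : R) (ha' : a ∈ I ^ (d + 1)) :
    ∃ ha : a ∈ I ^ d, reesMon I d a ha ∈ I.map (algebraMap R (reesAlgebra I)) := by
  rw [pow_succ, mul_comm] at ha'
  refine Submodule.mul_induction_on ha' ?_ ?_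
  · intro b hb c hc
    have ha : b * c ∈ I ^ d := Ideal.mul_mem_left _ _ hc
    have h : reesMon I d (b * c) ha = algebraMap R (reesAlgebra I) b * reesMon I d c hc := by
      apply Subtype.ext
      show Polynomial.monomial d (b * c) = Polynomial.C b * Polynomial.monomial d c
      rw [Polynomial.C_mul_monomial]
    refine ⟨ha, ?_⟩
    rw [h]
    exact Ideal.mul_mem_right _ _ (Ideal.mem_map_of_mem _ hb)
  · rintro x y ⟨hxd, hx⟩ ⟨hyd, hy⟩
    have h : reesMon I d (x + y) (Ideal.add_mem _ hxd hyd) =
        reesMon I d x hxd + reesMon I d y hyd := by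
      apply Subtype.ext
      show Polynomial.monomial d (x + y) = Polynomial.monomial d x + Polynomial.monomial d y
      rw [map_add]
    refine ⟨Ideal.add_mem _ hxd hyd, ?_⟩
    rw [h]
    exact Ideal.add_mem _ hx hy

theorem reesMon_mem (d : ℕ) (a : R) (ha' : a ∈ I ^ (d + 1)) (ha : a ∈ I ^ d) :
    reesMon I d a ha ∈ I.map (algebraMap R (reesAlgebra I)) :=
  (reesMon_mem' I d a ha').2

theorem map_eq_bigIdeal : I.map (algebraMap R (reesAlgebra I)) = bigIdeal I := by
  apply le_antisymm
  · rw [Ideal.map_le_iff_le_comap]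
    intro a ha d
    show (Polynomial.C a).coeff d ∈ I ^ (d + 1)
    rw [Polynomial.coeff_C]
    split_ifs with h
    · rw [h, zero_add, pow_one]
      exact ha
    · exact Ideal.zero_mem _
  · intro F hF
    have h1 : F = ∑ d ∈ (F : Polynomial R).support, reesMon I d ((F : Polynomial R).coeff d)
        ((mem_reesAlgebra_iff I _).1 F.2 d) := by
      apply Subtype.ext
      rw [AddSubmonoidClass.coe_finsetSum]
      exact (F : Polynomial R).as_sum_support
    rw [h1]
    exact Ideal.sum_mem _ fun d _ => reesMon_mem I d _ (hF d) _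

theorem mk_eq_zero_iff (F : reesAlgebra I) :
    (Ideal.Quotient.mk (I.map (algebraMap R (reesAlgebra I))) F = 0) ↔
      ∀ d, (F : Polynomial R).coeff d ∈ I ^ (d + 1) := by
  rw [Ideal.Quotient.eq_zero_iff_mem, map_eq_bigIdeal]
  rfl

end rees

section toric

variable (k : Type u) [Field k] {e : ℕ} (g : Fin e → ℕ) (hpos : ∀ j, 0 < g j)

/-- the map to the Rees algebra -/
noncomputable def toRees : MvPolynomial (Fin e) k →ₐ[k]
    reesAlgebra (maxIdeal k (AddSubmonoid.closure (Set.range g))) :=
  aeval fun j => (⟨Polynomial.monomial 1 (tpow k g j), reesAlgebra.monomial_mem.2 (by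
    rw [pow_one]; exact tpow_mem hpos j)⟩ :
      reesAlgebra (maxIdeal k (AddSubmonoid.closure (Set.range g))))

/-- the evaluation -/
noncomputable def ev : MvPolynomial (Fin e) k →ₐ[k]
    semigroupRing k (AddSubmonoid.closure (Set.range g)) := aeval (tpow k g)

theorem toRees_monomial (u : Fin e →₀ ℕ) (c : k) :
    (toRees k g hpos (monomial u c) : Polynomial _) =
      Polynomial.C (ev k g (monomial u c)) * Polynomial.X ^ u.degree := by
  have h0 : ∀ F : reesAlgebra (maxIdeal k (AddSubmonoid.closure (Set.range g))),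
      (F : Polynomial _) = (reesAlgebra (maxIdeal k (AddSubmonoid.closure (Set.range g)))).val F :=
    fun _ => rfl
  unfold toRees ev
  rw [aeval_monomial, aeval_monomial, h0, map_mul, map_finsuppProd, map_mul, mul_assoc]
  congr 1
  rw [Finsupp.prod, Finsupp.prod, map_prod, Finsupp.degree_apply, ← Finset.prod_pow_eq_pow_sum,
    ← Finset.prod_mul_distrib]
  refine Finset.prod_congr rfl fun j _ => ?_
  rw [map_pow, map_pow, ← mul_pow]
  congr 1
  show Polynomial.monomial 1 (tpow k g j) = Polynomial.C (tpow k g j) * Polynomial.X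
  rw [Polynomial.C_mul_X_eq_monomial]

theorem toRees_coeff (p : MvPolynomial (Fin e) k) (d : ℕ) :
    (toRees k g hpos p : Polynomial _).coeff d = ev k g (homogeneousComponent d p) := by
  induction p using MvPolynomial.induction_on' with
  | monomial u c =>
    rw [toRees_monomial, Polynomial.coeff_C_mul, Polynomial.coeff_X_pow]
    by_cases h : d = u.degree
    · rw [if_pos h, mul_one, homogeneousComponent_of_mem (isHomogeneous_monomial c rfl),
        if_pos h]
    · rw [if_neg h, mul_zero, homogeneousComponent_of_mem (isHomogeneous_monomial c rfl),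
        if_neg h, map_zero]
  | add p q hp hq =>
    rw [map_add, map_add, map_add, ← hp, ← hq]
    exact Polynomial.coeff_add _ _ _

include hpos in
theorem ev_mem (d : ℕ) (p : MvPolynomial (Fin e) k) :
    ev k g (homogeneousComponent d p) ∈
      maxIdeal k (AddSubmonoid.closure (Set.range g)) ^ d := by
  rw [← toRees_coeff k g hpos p d]
  exact (mem_reesAlgebra_iff _ _).1 (toRees k g hpos p).2 d

/-- the evaluation in polynomials -/
noncomputable def evP : MvPolynomial (Fin e) k →ₐ[k] Polynomial k :=
  aeval fun j : Fin e => (Polynomial.X : Polynomial k) ^ g j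

theorem ev_coe (p : MvPolynomial (Fin e) k) :
    ((ev k g p : semigroupRing k (AddSubmonoid.closure (Set.range g))) : PowerSeries k) =
      ((evP k g p : Polynomial k) : PowerSeries k) := by
  have h : (semigroupRing k (AddSubmonoid.closure (Set.range g))).val.comp (ev k g) =
      (Polynomial.coeToPowerSeries.algHom k).comp (evP k g) := by
    apply MvPolynomial.algHom_ext
    intro j
    simp only [AlgHom.comp_apply]
    unfold ev evP
    rw [aeval_X, aeval_X, map_pow]
    show (PowerSeries.X : PowerSeries k) ^ g j = _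
    simp
  have h2 := congrArg (fun φ : MvPolynomial (Fin e) k →ₐ[k] PowerSeries k => φ p) h
  simpa [AlgHom.comp_apply] using h2

theorem evP_monomial (u : Fin e →₀ ℕ) (c : k) :
    evP k g (monomial u c) = Polynomial.C c * Polynomial.X ^ wt g u := by
  unfold evP
  rw [aeval_monomial]
  congr 1
  rw [Finsupp.prod, wt, Finsupp.sum, ← Finset.prod_pow_eq_pow_sum]
  refine Finset.prod_congr rfl fun j _ => ?_
  rw [pow_mul]

/-- the ideal of initial forms of the toric ideal -/
noncomputable def initIdeal : Ideal (MvPolynomial (Fin e) k) :=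
  Ideal.span {p : MvPolynomial (Fin e) k | ∃ f ∈ RingHom.ker
    (MvPolynomial.aeval (fun j : Fin e => (Polynomial.X : Polynomial k) ^ g j)),
      ∃ d : ℕ, (∀ m : ℕ, m < d → MvPolynomial.homogeneousComponent m f = 0) ∧
        p = MvPolynomial.homogeneousComponent d f}

theorem hom_mem (d : ℕ) (p : MvPolynomial (Fin e) k) (hp : p.IsHomogeneous d)
    (h : ev k g p ∈ Jd k g (d + 1)) : p ∈ initIdeal k g := by
  have h1 : ∀ m ∈ (evP k g p).support, ∃ u : Fin e →₀ ℕ, d + 1 ≤ u.degree ∧ wt g u = m := by
    intro m hm
    apply h m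
    rw [ev_coe, Polynomial.coeff_coe]
    exact Polynomial.mem_support_iff.1 hm
  choose! u hu1 hu2 using h1
  set q : MvPolynomial (Fin e) k :=
    ∑ m ∈ (evP k g p).support, monomial (u m) ((evP k g p).coeff m) with hq
  have hq1 : evP k g q = evP k g p := by
    rw [hq, map_sum]
    conv_rhs => rw [(evP k g p).as_sum_support_C_mul_X_pow]
    refine Finset.sum_congr rfl fun m hm => ?_
    rw [evP_monomial, hu2 m hm]
  have hq2 : ∀ i ≤ d, homogeneousComponent i q = 0 := by
    intro i hi
    rw [hq, map_sum]
    refine Finset.sum_eq_zero fun m hm => ?_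
    rw [homogeneousComponent_of_mem (isHomogeneous_monomial _ rfl), if_neg]
    have := hu1 m hm
    omega
  refine Ideal.subset_span ⟨p - q, ?_, d, ?_, ?_⟩
  · rw [RingHom.mem_ker]
    show evP k g (p - q) = 0
    rw [map_sub, hq1, sub_self]
  · intro m hm
    rw [map_sub, hq2 m hm.le, homogeneousComponent_of_mem hp, if_neg (by omega), sub_zero]
  · rw [map_sub, hq2 d le_rfl, homogeneousComponent_of_mem hp, if_pos rfl, sub_zero]

/-- the map to the associated graded ring -/
noncomputable def toGr : MvPolynomial (Fin e) k →ₐ[k]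
    AssocGraded (maxIdeal k (AddSubmonoid.closure (Set.range g))) :=
  aeval fun j => degOne _ ⟨tpow k g j, tpow_mem hpos j⟩

theorem toGr_eq (p : MvPolynomial (Fin e) k) :
    toGr k g hpos p = Ideal.Quotient.mk _ (toRees k g hpos p) := by
  have h : toGr k g hpos = (Ideal.Quotient.mkₐ k _).comp (toRees k g hpos) := by
    apply MvPolynomial.algHom_ext
    intro j
    rw [AlgHom.comp_apply]
    unfold toGr toRees
    rw [aeval_X, aeval_X]
    rfl
  rw [h]
  rfl

theorem toGr_eq_zero_iff (p : MvPolynomial (Fin e) k) :
    toGr k g hpos p = 0 ↔ ∀ d, ev k g (homogeneousComponent d p) ∈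
      maxIdeal k (AddSubmonoid.closure (Set.range g)) ^ (d + 1) := by
  rw [toGr_eq, mk_eq_zero_iff]
  simp only [toRees_coeff]

theorem initIdeal_le (p : MvPolynomial (Fin e) k) (hp : p ∈ initIdeal k g) :
    toGr k g hpos p = 0 := by
  have hle : initIdeal k g ≤ RingHom.ker (toGr k g hpos) := by
    unfold initIdeal
    rw [Ideal.span_le]
    rintro _ ⟨f, hf, d, hlow, rfl⟩
    show toGr k g hpos _ = 0
    rw [toGr_eq_zero_iff]
    intro i
    by_cases hid : i = d
    · subst hid
      rw [homogeneousComponent_of_mem (homogeneousComponent_isHomogeneous i f), if_pos rfl]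
      have hf0 : ev k g f = 0 := by
        apply Subtype.ext
        rw [ev_coe]
        have : evP k g f = 0 := hf
        rw [this]
        simp
      by_cases hi : i ∈ Finset.range (f.totalDegree + 1)
      · have h1 : ev k g f = ∑ j ∈ Finset.range (f.totalDegree + 1),
            ev k g (homogeneousComponent j f) := by
          rw [← map_sum, sum_homogeneousComponent]
        rw [hf0, ← Finset.add_sum_erase _ _ hi] at h1
        rw [eq_neg_of_add_eq_zero_left h1.symm]
        refine Ideal.neg_mem_iff _ |>.2 (Ideal.sum_mem _ fun j hj => ?_)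
        rw [Finset.mem_erase] at hj
        rcases lt_or_ge j i with h2 | h2
        · rw [hlow j h2, map_zero]
          exact Ideal.zero_mem _
        · exact Ideal.pow_le_pow_right (by omega) (ev_mem k g hpos j f)
      · rw [homogeneousComponent_eq_zero _ _ (by rw [Finset.mem_range] at hi; omega), map_zero]
        exact Ideal.zero_mem _
    · rw [homogeneousComponent_of_mem (homogeneousComponent_isHomogeneous d f), if_neg hid,
        map_zero]
      exact Ideal.zero_mem _
  exact hle hp

theorem toGr_eq_zero_iff_mem (p : MvPolynomial (Fin e) k) :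
    toGr k g hpos p = 0 ↔ p ∈ initIdeal k g := by
  refine ⟨fun h => ?_, initIdeal_le k g hpos p⟩
  rw [toGr_eq_zero_iff] at h
  rw [← sum_homogeneousComponent p]
  exact Ideal.sum_mem _ fun d _ => hom_mem k g d _ (homogeneousComponent_isHomogeneous d p)
    (pow_le_Jd (d + 1) (h d))

end toric

end Pool.Agent.HSG
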