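import Pool.Agent.HSU.TorLen

/-!
# Tor with the residue field is killed by the variables
-/

set_option autoImplicit false

namespace Pool.Agent.HSG

universe u

open MvPolynomial Finset Pool.Agent.BEI Pool.Agent.HSU CategoryTheory

theorem kill_sc {R : Type u} [CommRing R] (S : ShortComplex (ModuleCat.{u} R)) (r : R)
    (h : ∀ x, S.g x = 0 → ∃ y, S.f y = r • x) (t : S.homology) : r • t = 0 := by
  have e : S.homology ≃ₗ[R] (LinearMap.ker S.g.hom ⧸ LinearMap.range S.moduleCatToCycles) :=
    S.moduleCatHomologyIso.toLinearEquiv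
  apply e.injective
  rw [map_smul, map_zero]
  obtain ⟨x, hx⟩ := Submodule.mkQ_surjective _ (e t)
  rw [← hx, ← map_smul, Submodule.mkQ_apply, Submodule.Quotient.mk_eq_zero]
  obtain ⟨y, hy⟩ := h x.1 x.2
  exact ⟨y, Subtype.ext hy⟩

theorem kill_homology {R : Type u} [CommRing R] (C : ChainComplex (ModuleCat.{u} R) ℕ) (i : ℕ)
    (r : R) (h : ∀ x, C.d (i + 1) i x = 0 → ∃ y, C.d (i + 2) (i + 1) y = r • x)
    (t : C.homology (i + 1)) : r • t = 0 := by
  have e := (HomologicalComplex.homologyIsoSc' C (i + 2) (i + 1) i (by simp)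
    (by simp)).toLinearEquiv
  apply e.injective
  rw [map_smul, map_zero]
  exact kill_sc (C.sc' (i + 2) (i + 1) i) r h (e t)

theorem wedge_chI (k : Type u) [Field k] (n : ℕ) (N : Type u) [AddCommGroup N]
    [Module (MvPolynomial (Fin n) k) N] (i : ℕ) (v : Fin n) (f : Finset (Fin n) → N)
    (hf : f ∈ chI k n N i) : wedge k N v f ∈ chI k n N (i + 1) := by
  intro A hA
  by_cases hv : v ∈ A
  · rw [wedge_apply_mem N v f A hv] at hA
    have h1 : f (A.erase v) ≠ 0 := by
      intro h0
      apply hA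
      rw [h0, smul_zero]
    have h2 := hf _ h1
    rw [Finset.card_erase_of_mem hv] at h2
    have h3 := Finset.card_pos.2 ⟨v, hv⟩
    omega
  · exact absurd (wedge_apply_notMem N v f A hv) hA

theorem kill_tor (k : Type u) [Field k] (n : ℕ) (N : Type u) [AddCommGroup N]
    [Module (MvPolynomial (Fin n) k) N] (i : ℕ) (v : Fin n)
    (t : (((CategoryTheory.Tor (ModuleCat.{u} (MvPolynomial (Fin n) k)) (i + 1)).obj
        (ModuleCat.of (MvPolynomial (Fin n) k) N)).obj
        (ModuleCat.of (MvPolynomial (Fin n) k) (MvPolynomial (Fin n) k ⧸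
          Ideal.span (Set.range (MvPolynomial.X : Fin n → MvPolynomial (Fin n) k)))))) :
    (X v : MvPolynomial (Fin n) k) • t = 0 := by
  have e := ((KR k n).isoLeftDerivedObj
    ((MonoidalCategory.tensoringLeft (ModuleCat.{u} (MvPolynomial (Fin n) k))).obj
      (ModuleCat.of (MvPolynomial (Fin n) k) N)) (i + 1)).toLinearEquiv
  apply e.injective
  refine (e.map_smul (X v) t).trans (Eq.trans ?_ (e.map_zero).symm)
  refine kill_homology
    ((((MonoidalCategory.tensoringLeft (ModuleCat.{u} (MvPolynomial (Fin n) k))).obj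
      (ModuleCat.of (MvPolynomial (Fin n) k) N)).mapHomologicalComplex
        (ComplexShape.down ℕ)).obj (KC k n)) i (X v) ?_ _
  have hcomm : ∀ j x, koszulD k N (PhiT k n N (j + 1) x) = PhiT k n N j
    (((((MonoidalCategory.tensoringLeft (ModuleCat.{u} (MvPolynomial (Fin n) k))).obj
      (ModuleCat.of (MvPolynomial (Fin n) k) N)).mapHomologicalComplex
        (ComplexShape.down ℕ)).obj (KC k n)).d (j + 1) j x) := by
    intro j x
    refine (PhiT_comm k n N j x).trans ?_
    rw [tensor_d]
    rfl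
  intro x hx
  have h1 : koszulD k N (PhiT k n N (i + 1) x) = 0 := by
    rw [hcomm, hx]
    exact map_zero _
  have h2 : PhiT k n N (i + 1) x ∈ chI k n N (i + 1) := by
    intro A hA
    exact extK_card (k := k) N _ A hA
  have h3 := wedge_chI k n N (i + 1) v _ h2
  obtain ⟨z, hz⟩ := (TensorProduct.piScalarRight (MvPolynomial (Fin n) k)
    (MvPolynomial (Fin n) k) N (Idx n (i + 2))).surjective
      (resK (k := k) N (i + 2) (wedge k N v (PhiT k n N (i + 1) x)))
  have hz' : PhiT k n N (i + 2) z = wedge k N v (PhiT k n N (i + 1) x) := by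
    show extK (k := k) N (i + 2) (TensorProduct.piScalarRight (MvPolynomial (Fin n) k)
      (MvPolynomial (Fin n) k) N (Idx n (i + 2)) z) = _
    rw [hz]
    exact extK_resK (k := k) N (i + 2) _ h3
  refine ⟨z, ?_⟩
  apply PhiT_injective k n N (i + 1)
  refine (hcomm (i + 1) z).symm.trans ?_
  rw [hz', koszulD_wedge, h1, map_zero, sub_zero]
  exact (map_smul (PhiT k n N (i + 1)) (X v : MvPolynomial (Fin n) k) x).symm

end Pool.Agent.HSG
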