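import Pool.Agent.HSG.Ring

/-!
# The maximal ideal of `k⟦Γ⟧` and its powers
-/

set_option autoImplicit false

namespace Pool.Agent.HSG

universe u

open PowerSeries

/-- the element `t ^ (g j)` of `k⟦Γ⟧`, `Γ` generated by `g 0, g 1, ...` -/
noncomputable def tpow (k : Type u) [Field k] {e : ℕ} (g : Fin e → ℕ) (j : Fin e) :
    semigroupRing k (AddSubmonoid.closure (Set.range g)) :=
  ⟨X ^ g j, by
    intro m hm
    rw [coeff_X_pow] at hm
    by_cases h : m = g j
    · rw [h]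
      exact AddSubmonoid.subset_closure ⟨j, rfl⟩
    · rw [if_neg h] at hm
      exact absurd rfl hm⟩

/-- the weight of an exponent vector -/
def wt {e : ℕ} (g : Fin e → ℕ) (u : Fin e →₀ ℕ) : ℕ := u.sum fun j c => g j * c

theorem wt_add {e : ℕ} (g : Fin e → ℕ) (u v : Fin e →₀ ℕ) : wt g (u + v) = wt g u + wt g v := by
  unfold wt
  exact Finsupp.sum_add_index' (fun _ => mul_zero _) (fun _ _ _ => mul_add _ _ _)

theorem exists_wt {e : ℕ} {g : Fin e → ℕ} {m : ℕ}
    (hm : m ∈ AddSubmonoid.closure (Set.range g)) : ∃ u, wt g u = m := by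
  rw [AddSubmonoid.mem_closure_range_iff] at hm
  obtain ⟨a, ha⟩ := hm
  refine ⟨a, ?_⟩
  rw [ha]
  unfold wt
  refine Finset.sum_congr rfl fun j _ => ?_
  simp only [smul_eq_mul]
  rw [mul_comm]

/-- the numbers which are sums of at least `d` of the `g j` -/
def Dset {e : ℕ} (g : Fin e → ℕ) (d : ℕ) : Set ℕ :=
  {m | ∃ u : Fin e →₀ ℕ, d ≤ u.degree ∧ wt g u = m}

variable {k : Type u} [Field k] {e : ℕ} {g : Fin e → ℕ}

/-- the series with exponents in `Dset g d` -/
def Jd (k : Type u) [Field k] {e : ℕ} (g : Fin e → ℕ) (d : ℕ) :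
    Ideal (semigroupRing k (AddSubmonoid.closure (Set.range g))) where
  carrier := {a | ∀ m, coeff m (a : k⟦X⟧) ≠ 0 → m ∈ Dset g d}
  zero_mem' := by
    intro m hm
    exact absurd (by simp) hm
  add_mem' := by
    intro a b ha hb m hm
    have hm' : coeff m ((a : k⟦X⟧) + (b : k⟦X⟧)) ≠ 0 := hm
    rw [map_add] at hm'
    by_cases h : coeff m (a : k⟦X⟧) = 0
    · rw [h, zero_add] at hm'
      exact hb m hm'
    · exact ha m h
  smul_mem' := by
    intro r a ha m hm
    have hm' : coeff m ((r : k⟦X⟧) * (a : k⟦X⟧)) ≠ 0 := hm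
    rw [coeff_mul] at hm'
    obtain ⟨p, hp, hne⟩ := Finset.exists_ne_zero_of_sum_ne_zero hm'
    rw [Finset.HasAntidiagonal.mem_antidiagonal] at hp
    obtain ⟨v, hv⟩ := exists_wt (r.2 _ (left_ne_zero_of_mul hne))
    obtain ⟨u, hu, hu'⟩ := ha _ (right_ne_zero_of_mul hne)
    refine ⟨v + u, ?_, ?_⟩
    · rw [map_add]
      omega
    · rw [wt_add, hv, hu', hp]

theorem mem_Jd {d : ℕ} {a : semigroupRing k (AddSubmonoid.closure (Set.range g))} :
    a ∈ Jd k g d ↔ ∀ m, coeff m (a : k⟦X⟧) ≠ 0 → m ∈ Dset g d := Iff.rfl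

theorem Jd_mul (a b : ℕ) : Jd k g a * Jd k g b ≤ Jd k g (a + b) := by
  rw [Ideal.mul_le]
  intro x hx y hy m hm
  have hm' : coeff m ((x : k⟦X⟧) * (y : k⟦X⟧)) ≠ 0 := hm
  rw [coeff_mul] at hm'
  obtain ⟨p, hp, hne⟩ := Finset.exists_ne_zero_of_sum_ne_zero hm'
  rw [Finset.HasAntidiagonal.mem_antidiagonal] at hp
  obtain ⟨v, hv, hv'⟩ := hx _ (left_ne_zero_of_mul hne)
  obtain ⟨u, hu, hu'⟩ := hy _ (right_ne_zero_of_mul hne)
  refine ⟨v + u, ?_, ?_⟩
  · rw [map_add]
    omega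
  · rw [wt_add, hv', hu', hp]

theorem max_le_Jd :
    maxIdeal k (AddSubmonoid.closure (Set.range g)) ≤ Jd k g 1 := by
  intro a ha m hm
  rw [mem_maxIdeal] at ha
  obtain ⟨u, hu⟩ := exists_wt (a.2 m hm)
  refine ⟨u, ?_, hu⟩
  rw [Nat.one_le_iff_ne_zero]
  intro h0
  have hu0 : u = 0 := (Finsupp.degree_eq_zero_iff u).1 h0
  rw [hu0] at hu
  have hm0 : m = 0 := by
    rw [← hu]
    simp [wt]
  rw [hm0, coeff_zero_eq_constantCoeff_apply] at hm
  exact hm ha

theorem pow_le_Jd (d : ℕ) :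
    maxIdeal k (AddSubmonoid.closure (Set.range g)) ^ d ≤ Jd k g d := by
  induction d with
  | zero =>
    intro a _ m hm
    obtain ⟨u, hu⟩ := exists_wt (a.2 m hm)
    exact ⟨u, Nat.zero_le _, hu⟩
  | succ d ih =>
    rw [pow_succ]
    exact (Ideal.mul_mono ih max_le_Jd).trans (Jd_mul d 1)

theorem exists_step {m : ℕ} (hm : m ∈ AddSubmonoid.closure (Set.range g)) (h0 : m ≠ 0) :
    ∃ j, ∃ m' ∈ AddSubmonoid.closure (Set.range g), m = g j + m' := by
  have h : ∀ m, m ∈ AddSubmonoid.closure (Set.range g) →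
      m = 0 ∨ ∃ j, ∃ m' ∈ AddSubmonoid.closure (Set.range g), m = g j + m' := by
    intro m hm
    induction hm using AddSubmonoid.closure_induction with
    | mem x hx =>
      obtain ⟨j, rfl⟩ := hx
      exact Or.inr ⟨j, 0, AddSubmonoid.zero_mem _, rfl⟩
    | zero => exact Or.inl rfl
    | add x y hx hy ihx ihy =>
      rcases ihx with rfl | ⟨j, x', hx', rfl⟩
      · rw [zero_add]
        exact ihy
      · exact Or.inr ⟨j, x' + y, AddSubmonoid.add_mem _ hx' hy, by rw [add_assoc]⟩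
  exact (h m hm).resolve_left h0

theorem X_pow_mem {Γ : AddSubmonoid ℕ} {m : ℕ} (hm : m ∈ Γ) :
    (X : k⟦X⟧) ^ m ∈ semigroupRing k Γ := by
  intro i hi
  rw [coeff_X_pow] at hi
  by_cases h : i = m
  · rw [h]
    exact hm
  · rw [if_neg h] at hi
    exact absurd rfl hi

theorem X_pow_mem_span {m : ℕ} (hm : m ∈ AddSubmonoid.closure (Set.range g)) (h0 : m ≠ 0) :
    (⟨X ^ m, X_pow_mem hm⟩ : semigroupRing k (AddSubmonoid.closure (Set.range g))) ∈
      Ideal.span (Set.range (tpow k g)) := by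
  obtain ⟨j, m', hm', hj⟩ := exists_step hm h0
  have h : (⟨X ^ m, X_pow_mem hm⟩ : semigroupRing k (AddSubmonoid.closure (Set.range g))) =
      ⟨X ^ m', X_pow_mem hm'⟩ * tpow k g j := by
    apply Subtype.ext
    show (X : k⟦X⟧) ^ m = X ^ m' * X ^ g j
    rw [← pow_add, hj, add_comm]
  rw [h]
  exact Ideal.mul_mem_left _ _ (Ideal.subset_span ⟨j, rfl⟩)

theorem poly_mem_span (P : Polynomial k)
    (h : ∀ m ∈ P.support, m ∈ AddSubmonoid.closure (Set.range g) ∧ m ≠ 0)
    (c : semigroupRing k (AddSubmonoid.closure (Set.range g))) (hc : (c : k⟦X⟧) = (P : k⟦X⟧)) :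
    c ∈ Ideal.span (Set.range (tpow k g)) := by
  have h1 : c = ∑ m ∈ P.support.attach, algebraMap k _ (P.coeff m.1) *
      (⟨X ^ m.1, X_pow_mem (h m.1 m.2).1⟩ :
        semigroupRing k (AddSubmonoid.closure (Set.range g))) := by
    apply Subtype.ext
    rw [hc]
    have h2 : ((∑ m ∈ P.support.attach, algebraMap k _ (P.coeff m.1) *
      (⟨X ^ m.1, X_pow_mem (h m.1 m.2).1⟩ :
        semigroupRing k (AddSubmonoid.closure (Set.range g))) :
        semigroupRing k (AddSubmonoid.closure (Set.range g))) : k⟦X⟧) =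
        ∑ m ∈ P.support.attach, C (P.coeff m.1) * X ^ m.1 := by
      rw [AddSubmonoidClass.coe_finsetSum]
      rfl
    rw [h2, Finset.sum_attach P.support fun m => (C (P.coeff m) : k⟦X⟧) * X ^ m]
    conv_lhs => rw [P.as_sum_support_C_mul_X_pow]
    have h3 := map_sum (Polynomial.coeToPowerSeries.ringHom (R := k))
      (fun m => Polynomial.C (P.coeff m) * Polynomial.X ^ m) P.support
    simp only [Polynomial.coeToPowerSeries.ringHom_apply] at h3
    rw [h3]
    refine Finset.sum_congr rfl fun m _ => ?_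
    simp
  rw [h1]
  exact Ideal.sum_mem _ fun m _ => Ideal.mul_mem_left _ _
    (X_pow_mem_span (h m.1 m.2).1 (h m.1 m.2).2)

theorem tpow_mem (hpos : ∀ j, 0 < g j) (j : Fin e) :
    tpow k g j ∈ maxIdeal k (AddSubmonoid.closure (Set.range g)) := by
  rw [mem_maxIdeal]
  show constantCoeff ((X : k⟦X⟧) ^ g j) = 0
  rw [map_pow, constantCoeff_X, zero_pow (hpos j).ne']

theorem max_le_span (n : ℕ) (g : Fin (n + 1) → ℕ)
    (hfin : ((AddSubmonoid.closure (Set.range g) : Set ℕ)ᶜ).Finite) :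
    maxIdeal k (AddSubmonoid.closure (Set.range g)) ≤ Ideal.span (Set.range (tpow k g)) := by
  intro a ha
  rw [mem_maxIdeal] at ha
  obtain ⟨N, hN⟩ := hfin.bddAbove
  have hbig : ∀ m, N < m → m ∈ AddSubmonoid.closure (Set.range g) := by
    intro m hm
    by_contra hcon
    exact absurd (hN hcon) (by omega)
  set M := g 0 + (N + 1) with hM
  have e1 := eq_X_pow_mul_shift_add_trunc M (a : k⟦X⟧)
  have hb : (X : k⟦X⟧) ^ (N + 1) * (mk fun i => coeff (i + M) (a : k⟦X⟧)) ∈
      semigroupRing k (AddSubmonoid.closure (Set.range g)) := by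
    intro m hm
    rw [coeff_X_pow_mul'] at hm
    by_cases h : N + 1 ≤ m
    · exact hbig m (by omega)
    · rw [if_neg h] at hm
      exact absurd rfl hm
  set b : semigroupRing k (AddSubmonoid.closure (Set.range g)) := ⟨_, hb⟩ with hbdef
  have e2 : ((a - tpow k g 0 * b : semigroupRing k (AddSubmonoid.closure (Set.range g))) : k⟦X⟧) =
      ((trunc M (a : k⟦X⟧) : Polynomial k) : k⟦X⟧) := by
    show (a : k⟦X⟧) - X ^ g 0 * (X ^ (N + 1) * (mk fun i => coeff (i + M) (a : k⟦X⟧))) = _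
    rw [← mul_assoc, ← pow_add, ← hM, sub_eq_iff_eq_add]
    exact e1.trans (add_comm _ _)
  have h1 : a - tpow k g 0 * b ∈ Ideal.span (Set.range (tpow k g)) := by
    refine poly_mem_span _ ?_ _ e2
    intro m hm
    rw [Polynomial.mem_support_iff, coeff_trunc] at hm
    by_cases h : m < M
    · rw [if_pos h] at hm
      refine ⟨a.2 m hm, ?_⟩
      rintro rfl
      rw [coeff_zero_eq_constantCoeff_apply] at hm
      exact hm ha
    · rw [if_neg h] at hm
      exact absurd rfl hm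
  have h2 : tpow k g 0 * b ∈ Ideal.span (Set.range (tpow k g)) :=
    Ideal.mul_mem_right _ _ (Ideal.subset_span ⟨0, rfl⟩)
  have h3 := Ideal.add_mem _ h1 h2
  rwa [sub_add_cancel] at h3

end Pool.Agent.HSG
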