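import Mathlib

/-!
# The dimension of a module over a polynomial ring that is killed by the variables
-/

set_option autoImplicit false

namespace Pool.Agent.HSG

universe u

open MvPolynomial CategoryTheory

variable (k : Type u) [Field k] (e : ℕ)

/-- the underlying vector space of a module over the polynomial ring -/
noncomputable abbrev vec (T : ModuleCat.{u} (MvPolynomial (Fin e) k)) : ModuleCat.{u} k :=
  (ModuleCat.restrictScalars (algebraMap k (MvPolynomial (Fin e) k))).obj T

theorem smul_of_kill (T : ModuleCat.{u} (MvPolynomial (Fin e) k))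
    (hT : ∀ (v : Fin e) (t : T), (X v : MvPolynomial (Fin e) k) • t = 0)
    (p : MvPolynomial (Fin e) k) (t : T) :
    p • t = (algebraMap k (MvPolynomial (Fin e) k) (constantCoeff p)) • t := by
  induction p using MvPolynomial.induction_on with
  | C a => rw [constantCoeff_C]; rfl
  | add p q hp hq => rw [add_smul, hp, hq, map_add, map_add, add_smul]
  | mul_X p v hp =>
    rw [mul_smul, hT, smul_zero, map_mul, constantCoeff_X, mul_zero, map_zero, zero_smul]

/-- every subspace is a submodule -/
def subOf (T : ModuleCat.{u} (MvPolynomial (Fin e) k))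
    (hT : ∀ (v : Fin e) (t : T), (X v : MvPolynomial (Fin e) k) • t = 0)
    (W : Submodule k (vec k e T)) : Submodule (MvPolynomial (Fin e) k) T where
  carrier := {t : T | (t : vec k e T) ∈ W}
  add_mem' := fun ha hb => W.add_mem ha hb
  zero_mem' := W.zero_mem
  smul_mem' := by
    intro p t ht
    show (p • t : T) ∈ W.carrier
    rw [smul_of_kill k e T hT p t]
    exact W.smul_mem (constantCoeff p) ht

theorem rank_le_of_kill (T : ModuleCat.{u} (MvPolynomial (Fin e) k))
    (hT : ∀ (v : Fin e) (t : T), (X v : MvPolynomial (Fin e) k) • t = 0) (N : ℕ)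
    (h : Module.length (MvPolynomial (Fin e) k) T ≤ N) : Module.rank k (vec k e T) ≤ N := by
  have hmono : StrictMono (subOf k e T hT) := by
    intro W W' hlt
    rw [SetLike.lt_iff_le_and_exists] at hlt ⊢
    obtain ⟨hle, t, ht, ht'⟩ := hlt
    exact ⟨fun x hx => hle hx, t, ht, ht'⟩
  have h1 : Module.length k (vec k e T) ≤ Module.length (MvPolynomial (Fin e) k) T := by
    have h2 := Order.krullDim_le_of_strictMono _ hmono
    rw [← Module.coe_length, ← Module.coe_length] at h2
    exact_mod_cast h2
  have h3 := h1.trans h
  rw [Module.length_eq_rank] at h3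
  exact Cardinal.toENat_le_natCast.1 h3

end Pool.Agent.HSG
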