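import Pool.Agent.HSU.Width

/-!
# The width bound with the common divisor of the differences
-/

set_option autoImplicit false

namespace Pool.Agent.HSG

universe u

open MvPolynomial Finset Pool.Agent.BEI Pool.Agent.HS Pool.Agent.HSU

theorem hl_le_width_div {K : Type u} [Field K] (n : ℕ) (g : Fin (n + 1) → ℕ) (hmono : StrictMono g)
    (hpos : ∀ j, 0 < g j) (hfin : ((AddSubmonoid.closure (Set.range g) : Set ℕ)ᶜ).Finite)
    (i : ℕ) (hi : 1 ≤ i) (q : ℕ) (hq0 : 0 < q) (hq : ∀ j, q ∣ g j - g 0) :
    hl Finset.univ i
      (⊤ : Submodule (MvPolynomial (Fin (n + 1)) K) (MvPolynomial (Fin (n + 1)) K))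
      (Istar K g) ≤ ((i * Nat.choose ((g (Fin.last n) - g 0) / q + 1) (i + 1) : ℕ) : ℕ∞) := by
  rcases Nat.eq_zero_or_pos n with hn | hn
  · subst hn
    rw [hl_one_var g hpos i hi]
    exact zero_le
  · have hlast : g 0 < g (Fin.last n) := hmono (by
      rw [Fin.lt_def]
      simpa using hn)
    set h := Finset.univ.gcd (fun j => g j - g 0) with hh
    have hdvd : ∀ j, h ∣ g j - g 0 := fun j => Finset.gcd_dvd (Finset.mem_univ j)
    have hh0 : 0 < h := by
      rcases Nat.eq_zero_or_pos h with h0 | h0
      · have := hdvd (Fin.last n)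
        rw [h0, Nat.zero_dvd] at this
        omega
      · exact h0
    set a : Fin (n + 1) → ℕ := fun j => (g j - g 0) / h with ha
    have hle : ∀ j, g 0 ≤ g j := fun j => hmono.monotone (Fin.zero_le j)
    have hga : ∀ j, g j = g 0 + h * a j := by
      intro j
      have h1 : h * a j = g j - g 0 := Nat.mul_div_cancel' (hdvd j)
      have h2 := hle j
      omega
    have hinj : Function.Injective a := by
      intro x y hxy
      apply hmono.injective
      rw [hga x, hga y, hxy]
    have ha0 : a 0 = 0 := by simp [ha]
    set w := a (Fin.last n) with hw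
    have hwW : h * w = g (Fin.last n) - g 0 := Nat.mul_div_cancel' (hdvd (Fin.last n))
    have hwpos : 0 < w := by
      rcases Nat.eq_zero_or_pos w with h0 | h0
      · rw [h0, mul_zero] at hwW
        omega
      · exact h0
    have hA : GoodA (im a) w := by
      refine ⟨?_, mem_im (a := a) (Fin.last n), ?_, hwpos, ?_⟩
      · rw [← ha0]; exact mem_im (a := a) 0
      · intro x hx
        rw [im, Finset.mem_image] at hx
        obtain ⟨j, _, rfl⟩ := hx
        have h1 : g j ≤ g (Fin.last n) := hmono.monotone (Fin.le_last j)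
        have h2 : h * a j ≤ h * w := by
          have e1 := hga j
          have e2 := hga (Fin.last n)
          rw [← hw] at e2
          omega
        exact Nat.le_of_mul_le_mul_left h2 hh0
      · intro k hk
        have h1 : h * k ∣ h := by
          conv_rhs => rw [hh]
          apply Finset.dvd_gcd
          intro j _
          have h2 : h * a j = g j - g 0 := Nat.mul_div_cancel' (hdvd j)
          rw [← h2]
          exact Nat.mul_dvd_mul_left h (hk _ (mem_im j))
        have h2 : h * k ∣ h * 1 := by rwa [mul_one]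
        exact Nat.dvd_one.mp (Nat.dvd_of_mul_dvd_mul_left hh0 h2)
    have hcop : Nat.Coprime (g 0) h := by
      refine coprime_of_finite_compl (g := g) (fun j => ?_) hfin
      rw [hga j]
      exact dvd_add (Nat.gcd_dvd_left _ _) (Dvd.dvd.mul_right (Nat.gcd_dvd_right _ _) _)
    have hs := moShift (K := K) a
    rw [hl_Istar hs hga hh0 hcop]
    refine (bound_all (K := K) hs hinj ha0 hw.symm hA (g 0) h (hpos 0) hh0 i hi).trans ?_
    have hqh : q ≤ h := Nat.le_of_dvd hh0 (Finset.dvd_gcd fun j _ => hq j)
    have hle2 : w ≤ (g (Fin.last n) - g 0) / q := by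
      rw [← hwW, Nat.le_div_iff_mul_le hq0, mul_comm]
      exact Nat.mul_le_mul_right w hqh
    exact_mod_cast Nat.mul_le_mul_left i (Nat.choose_le_choose (i + 1) (Nat.add_le_add_right hle2 1))

end Pool.Agent.HSG
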