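import Pool.Agent.HSG.Surj
import Pool.Agent.HSG.Kill
import Pool.Agent.HSG.Rank
import Pool.Agent.HSG.Width

/-!
# Betti numbers of the tangent cone
-/

set_option autoImplicit false

namespace Pool.Agent.HSG

universe u

open CategoryTheory MvPolynomial

section defs

variable (k : Type u) [Field k] {e : ℕ} (g : Fin e → ℕ)

/-- The ring `R = k⟦Γ⟧` of the power series over `k` with all exponents in `Γ`, the semigroup
generated by the `g j`. -/
def RGamma : Type u := semigroupRing k (AddSubmonoid.closure (Set.range g))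

noncomputable instance RGamma.commRing : CommRing (RGamma k g) :=
  Subalgebra.toCommRing (semigroupRing k (AddSubmonoid.closure (Set.range g)))

noncomputable instance RGamma.algebra : Algebra k (RGamma k g) :=
  Subalgebra.algebra (semigroupRing k (AddSubmonoid.closure (Set.range g)))

instance RGamma.isLocalRing : IsLocalRing (RGamma k g) :=
  HSG.isLocalRing k (AddSubmonoid.closure (Set.range g))

/-- the power `m ^ d` of the maximal ideal `m` of `R = k⟦Γ⟧` -/
noncomputable def maxPow (d : ℕ) : Ideal (RGamma k g) :=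
  IsLocalRing.maximalIdeal (RGamma k g) ^ d

/-- the evaluation `f ↦ f (t ^ (g 1), ..., t ^ (g e))` -/
noncomputable def evalR : MvPolynomial (Fin e) k →ₐ[k] RGamma k g := aeval (tpow k g)

/-- The kernel of the map from `S = k[x_1, ..., x_e]` onto `gr_m(R) = ⨁ m ^ d / m ^ (d + 1)`,
`R = k⟦Γ⟧`, which sends `x_j` to the class of `t ^ (g j)` in `m / m ^ 2`: it is generated by the
homogeneous polynomials `f`, of any degree `d`, with `f (t ^ (g 1), ..., t ^ (g e)) ∈ m ^ (d + 1)`. -/
noncomputable def coneIdeal : Ideal (MvPolynomial (Fin e) k) :=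
  Ideal.span {f | ∃ d : ℕ, f.IsHomogeneous d ∧ evalR k g f ∈ maxPow k g (d + 1)}

/-- The map `S → gr_m(R)` is onto: for every `d` each element of `m ^ d` is congruent modulo
`m ^ (d + 1)` to `f (t ^ (g 1), ..., t ^ (g e))` for some homogeneous `f` of degree `d`. -/
def OntoGr : Prop :=
  ∀ d : ℕ, ∀ a ∈ maxPow k g d, ∃ f : MvPolynomial (Fin e) k,
    f.IsHomogeneous d ∧ evalR k g f - a ∈ maxPow k g (d + 1)

end defs

/-- The module `Tor_i^S(M, K)`. -/
noncomputable def torModule {S : Type u} [CommRing S] (i : ℕ) (M K : ModuleCat.{u} S) :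
    ModuleCat.{u} S :=
  ((Tor (ModuleCat.{u} S) i).obj M).obj K

/-- The dimension over `k` of a module over a `k`-algebra `S`. -/
noncomputable def kdim (k : Type u) [Field k] {S : Type u} [CommRing S] [Algebra k S]
    (T : ModuleCat.{u} S) : Cardinal.{u} :=
  Module.rank k ((ModuleCat.restrictScalars (algebraMap k S)).obj T)

/-- The `S`-module `S / I`. -/
noncomputable def quotModule {S : Type u} [CommRing S] (I : Ideal S) : ModuleCat.{u} S :=
  ModuleCat.of S (S ⧸ I)

/-- The Betti number `dim_k Tor_i^S(S / I, k)` of `S / I`, `S = k[x_1, ..., x_e]`, where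
`k = S / (x_1, ..., x_e)`. -/
noncomputable def betti {k : Type u} [Field k] {e : ℕ} (i : ℕ)
    (I : Ideal (MvPolynomial (Fin e) k)) : Cardinal.{u} :=
  kdim k (torModule i (quotModule I)
    (quotModule (Ideal.span (Set.range (X : Fin e → MvPolynomial (Fin e) k)))))

theorem coneIdeal_eq (k : Type u) [Field k] {e : ℕ} (g : Fin e → ℕ) (hpos : ∀ j, 0 < g j) :
    coneIdeal k g = initIdeal k g := by
  apply le_antisymm
  · unfold coneIdeal
    rw [Ideal.span_le]
    rintro f ⟨d, hf, hfd⟩
    exact hom_mem k g d f hf (pow_le_Jd (d + 1) hfd)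
  · unfold initIdeal
    rw [Ideal.span_le]
    rintro _ ⟨f, hf, d, hlow, rfl⟩
    have h1 : homogeneousComponent d f ∈ initIdeal k g :=
      Ideal.subset_span ⟨f, hf, d, hlow, rfl⟩
    have h2 := (toGr_eq_zero_iff k g hpos _).1 (initIdeal_le k g hpos _ h1) d
    have h3 : (homogeneousComponent d f).IsHomogeneous d := homogeneousComponent_isHomogeneous d f
    rw [homogeneousComponent_of_mem h3, if_pos rfl] at h2
    exact Ideal.subset_span ⟨d, h3, h2⟩

theorem betti_le (k : Type u) [Field k] {n : ℕ} (g : Fin (n + 1) → ℕ) (hmono : StrictMono g)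
    (hpos : ∀ j, 0 < g j) (hfin : ((AddSubmonoid.closure (Set.range g) : Set ℕ)ᶜ).Finite)
    (i : ℕ) (hi : 1 ≤ i) (q : ℕ) (hq0 : 0 < q) (hq : ∀ j, q ∣ g j - g 0) :
    betti i (coneIdeal k g) ≤
      ((i * Nat.choose ((g (Fin.last n) - g 0) / q + 1) (i + 1) : ℕ) : Cardinal) := by
  obtain ⟨i, rfl⟩ : ∃ j, i = j + 1 := ⟨i - 1, by omega⟩
  have h1 := Pool.Agent.HS.hl_quotient (Pool.Agent.HS.Istar k g) Finset.univ (i + 1)
  have h2 := (Pool.Agent.HSU.tor_le_hl k (n + 1)
    (MvPolynomial (Fin (n + 1)) k ⧸ Pool.Agent.HS.Istar k g) (i + 1)).trans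
      (h1.symm.le.trans (hl_le_width_div n g hmono hpos hfin (i + 1) hi q hq0 hq))
  rw [coneIdeal_eq k g hpos]
  refine rank_le_of_kill k (n + 1) _ ?_ _ h2
  intro v t
  exact kill_tor k (n + 1) _ i v t

theorem exists_form' (k : Type u) [Field k] {n : ℕ} (g : Fin (n + 1) → ℕ)
    (hpos : ∀ j, 0 < g j) (hfin : ((AddSubmonoid.closure (Set.range g) : Set ℕ)ᶜ).Finite)
    (d : ℕ) (a : semigroupRing k (AddSubmonoid.closure (Set.range g)))
    (ha : a ∈ maxIdeal k (AddSubmonoid.closure (Set.range g)) ^ d) :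
    ∃ f : MvPolynomial (Fin (n + 1)) k, f.IsHomogeneous d ∧
      ev k g f - a ∈ maxIdeal k (AddSubmonoid.closure (Set.range g)) ^ (d + 1) := by
  obtain ⟨p, hp⟩ := toGr_surjective k g hpos hfin
    (Ideal.Quotient.mk _ (reesMon (maxIdeal k (AddSubmonoid.closure (Set.range g))) d a ha))
  refine ⟨homogeneousComponent d p, homogeneousComponent_isHomogeneous d p, ?_⟩
  rw [toGr_eq, ← sub_eq_zero, ← map_sub] at hp
  have h1 := (mk_eq_zero_iff _ _).1 hp d
  have h2 : ((toRees k g hpos p - reesMon (maxIdeal k (AddSubmonoid.closure (Set.range g))) d a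
      ha : reesAlgebra (maxIdeal k (AddSubmonoid.closure (Set.range g)))) :
        Polynomial (semigroupRing k (AddSubmonoid.closure (Set.range g)))).coeff d =
      ev k g (homogeneousComponent d p) - a := by
    rw [← toRees_coeff k g hpos p d]
    show ((toRees k g hpos p : Polynomial _) - Polynomial.monomial d a).coeff d = _
    rw [Polynomial.coeff_sub, Polynomial.coeff_monomial, if_pos rfl]
  rwa [h2] at h1

/-- the map `S → gr_m(R)` is surjective in each degree -/
theorem exists_form (k : Type u) [Field k] {n : ℕ} (g : Fin (n + 1) → ℕ)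
    (hpos : ∀ j, 0 < g j) (hfin : ((AddSubmonoid.closure (Set.range g) : Set ℕ)ᶜ).Finite) :
    OntoGr k g :=
  fun d a ha => exists_form' k g hpos hfin d a ha

end Pool.Agent.HSG
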