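import Mathlib

/-!
# The ring `k⟦Γ⟧` of a numerical semigroup and its associated graded ring
-/

set_option autoImplicit false

namespace Pool.Agent.HSG

universe u

open PowerSeries

/-- `k⟦Γ⟧`: the power series over `k` all of whose exponents lie in the submonoid `Γ` of `ℕ`. -/
def semigroupRing (k : Type u) [Field k] (Γ : AddSubmonoid ℕ) : Subalgebra k k⟦X⟧ where
  carrier := {f | ∀ m, coeff m f ≠ 0 → m ∈ Γ}
  mul_mem' := by
    intro f g hf hg m hm
    rw [coeff_mul] at hm
    obtain ⟨p, hp, hne⟩ := Finset.exists_ne_zero_of_sum_ne_zero hm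
    rw [Finset.HasAntidiagonal.mem_antidiagonal] at hp
    rw [← hp]
    exact Γ.add_mem (hf _ (left_ne_zero_of_mul hne)) (hg _ (right_ne_zero_of_mul hne))
  add_mem' := by
    intro f g hf hg m hm
    rw [map_add] at hm
    by_cases h : coeff m f = 0
    · rw [h, zero_add] at hm
      exact hg m hm
    · exact hf m h
  algebraMap_mem' := by
    intro c m hm
    by_cases h : m = 0
    · rw [h]
      exact Γ.zero_mem
    · exfalso
      apply hm
      show coeff m (C c) = 0
      rw [coeff_C, if_neg h]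

theorem mem_semigroupRing {k : Type u} [Field k] {Γ : AddSubmonoid ℕ} {f : k⟦X⟧} :
    f ∈ semigroupRing k Γ ↔ ∀ m, coeff m f ≠ 0 → m ∈ Γ := Iff.rfl

theorem inv_mem {k : Type u} [Field k] {Γ : AddSubmonoid ℕ} {f : k⟦X⟧}
    (hf : f ∈ semigroupRing k Γ) : f⁻¹ ∈ semigroupRing k Γ := by
  intro m
  induction m using Nat.strong_induction_on with
  | _ m ih =>
    intro hm
    by_cases h0 : m = 0
    · rw [h0]
      exact Γ.zero_mem
    · rw [coeff_inv, if_neg h0] at hm
      obtain ⟨p, hp, hne⟩ := Finset.exists_ne_zero_of_sum_ne_zero (right_ne_zero_of_mul hm)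
      rw [Finset.HasAntidiagonal.mem_antidiagonal] at hp
      by_cases hlt : p.2 < m
      · rw [if_pos hlt] at hne
        rw [← hp]
        exact Γ.add_mem (hf _ (left_ne_zero_of_mul hne)) (ih _ hlt (right_ne_zero_of_mul hne))
      · rw [if_neg hlt] at hne
        exact absurd rfl hne

theorem isUnit_of {k : Type u} [Field k] {Γ : AddSubmonoid ℕ} (a : semigroupRing k Γ)
    (ha : constantCoeff (a : k⟦X⟧) ≠ 0) : IsUnit a := by
  refine IsUnit.of_mul_eq_one ⟨(a : k⟦X⟧)⁻¹, inv_mem a.2⟩ ?_
  apply Subtype.ext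
  show (a : k⟦X⟧) * (a : k⟦X⟧)⁻¹ = 1
  exact PowerSeries.mul_inv_cancel _ ha

instance isLocalRing (k : Type u) [Field k] (Γ : AddSubmonoid ℕ) :
    IsLocalRing (semigroupRing k Γ) := by
  refine IsLocalRing.of_isUnit_or_isUnit_one_sub_self fun a => ?_
  by_cases h : constantCoeff (a : k⟦X⟧) = 0
  · right
    apply isUnit_of
    show constantCoeff (1 - (a : k⟦X⟧)) ≠ 0
    rw [map_sub, h, map_one, sub_zero]
    exact one_ne_zero
  · left
    exact isUnit_of a h

/-- the maximal ideal of `k⟦Γ⟧` -/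
noncomputable abbrev maxIdeal (k : Type u) [Field k] (Γ : AddSubmonoid ℕ) : Ideal (semigroupRing k Γ) :=
  IsLocalRing.maximalIdeal (semigroupRing k Γ)

theorem mem_maxIdeal {k : Type u} [Field k] {Γ : AddSubmonoid ℕ} (a : semigroupRing k Γ) :
    a ∈ maxIdeal k Γ ↔ constantCoeff (a : k⟦X⟧) = 0 := by
  rw [IsLocalRing.mem_maximalIdeal, mem_nonunits_iff]
  constructor
  · intro h
    by_contra hne
    exact h (isUnit_of a hne)
  · intro h hu
    have h1 : IsUnit (constantCoeff (a : k⟦X⟧)) :=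
      (hu.map (semigroupRing k Γ).val).map constantCoeff
    rw [h] at h1
    exact not_isUnit_zero h1

/-- the associated graded ring `⨁ I ^ j / I ^ (j + 1)`: the Rees algebra `⨁ I ^ j T ^ j ⊆ R[T]`
modulo the ideal generated by `I` -/
abbrev AssocGraded {R : Type u} [CommRing R] (I : Ideal R) : Type u :=
  reesAlgebra I ⧸ I.map (algebraMap R (reesAlgebra I))

/-- the class of `a ∈ I` in `I / I ^ 2` -/
noncomputable def degOne {R : Type u} [CommRing R] (I : Ideal R) (a : I) : AssocGraded I :=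
  Ideal.Quotient.mk _ ⟨Polynomial.monomial 1 (a : R), reesAlgebra.monomial_mem.2 (by
    rw [pow_one]; exact a.2)⟩

end Pool.Agent.HSG
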