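import Pool.Agent.HSG.Gr

/-!
# The associated graded ring is a quotient of the polynomial ring
-/

set_option autoImplicit false

namespace Pool.Agent.HSG

universe u

open MvPolynomial

variable (k : Type u) [Field k] {n : ℕ} (g : Fin (n + 1) → ℕ) (hpos : ∀ j, 0 < g j)
  (hfin : ((AddSubmonoid.closure (Set.range g) : Set ℕ)ᶜ).Finite)

/-- the class of an element of the Rees algebra -/
noncomputable abbrev cls : reesAlgebra (maxIdeal k (AddSubmonoid.closure (Set.range g))) →+*
    AssocGraded (maxIdeal k (AddSubmonoid.closure (Set.range g))) :=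
  Ideal.Quotient.mk _

theorem cls_algebraMap (a : semigroupRing k (AddSubmonoid.closure (Set.range g))) :
    cls k g (algebraMap _ _ a) ∈ (toGr k g hpos).range := by
  set c : k := PowerSeries.constantCoeff (a : PowerSeries k) with hc
  have h1 : a - algebraMap k _ c ∈ maxIdeal k (AddSubmonoid.closure (Set.range g)) := by
    rw [mem_maxIdeal]
    show PowerSeries.constantCoeff ((a : PowerSeries k) - PowerSeries.C c) = 0
    rw [map_sub, PowerSeries.constantCoeff_C, hc, sub_self]
  have h2 : cls k g (algebraMap _ _ (a - algebraMap k _ c)) = 0 :=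
    Ideal.Quotient.eq_zero_iff_mem.2 (Ideal.mem_map_of_mem _ h1)
  rw [map_sub, map_sub, sub_eq_zero] at h2
  rw [h2]
  exact (toGr k g hpos).range.algebraMap_mem c

include hfin in
theorem cls_one (c : semigroupRing k (AddSubmonoid.closure (Set.range g)))
    (hc : c ∈ maxIdeal k (AddSubmonoid.closure (Set.range g)) ^ 1) :
    cls k g (reesMon _ 1 c hc) ∈ (toGr k g hpos).range := by
  have h : ∀ c ∈ Ideal.span (Set.range (tpow k g)),
      ∃ hc : c ∈ maxIdeal k (AddSubmonoid.closure (Set.range g)) ^ 1,
        cls k g (reesMon _ 1 c hc) ∈ (toGr k g hpos).range := by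
    intro c hc
    induction hc using Submodule.span_induction with
    | mem x hx =>
      obtain ⟨j, rfl⟩ := hx
      refine ⟨by rw [pow_one]; exact tpow_mem hpos j, X j, ?_⟩
      show toGr k g hpos (X j) = _
      unfold toGr
      rw [aeval_X]
      rfl
    | zero =>
      refine ⟨Ideal.zero_mem _, ?_⟩
      have h0 : reesMon (maxIdeal k (AddSubmonoid.closure (Set.range g))) 1 0
          (Ideal.zero_mem _) = 0 := by
        apply Subtype.ext
        show Polynomial.monomial 1 0 = 0
        rw [map_zero]
      rw [h0]
      rw [map_zero]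
      exact Subalgebra.zero_mem _
    | add x y _ _ ihx ihy =>
      obtain ⟨hx, hx'⟩ := ihx
      obtain ⟨hy, hy'⟩ := ihy
      refine ⟨Ideal.add_mem _ hx hy, ?_⟩
      have h0 : reesMon (maxIdeal k (AddSubmonoid.closure (Set.range g))) 1 (x + y)
          (Ideal.add_mem _ hx hy) = reesMon _ 1 x hx + reesMon _ 1 y hy := by
        apply Subtype.ext
        show Polynomial.monomial 1 (x + y) = Polynomial.monomial 1 x + Polynomial.monomial 1 y
        rw [map_add]
      rw [h0, map_add]
      exact Subalgebra.add_mem _ hx' hy'
    | smul r x _ ih =>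
      obtain ⟨hx, hx'⟩ := ih
      refine ⟨Ideal.mul_mem_left _ _ hx, ?_⟩
      have h0 : reesMon (maxIdeal k (AddSubmonoid.closure (Set.range g))) 1 (r • x)
          (Ideal.mul_mem_left _ _ hx) = algebraMap _ _ r * reesMon _ 1 x hx := by
        apply Subtype.ext
        show Polynomial.monomial 1 (r * x) = Polynomial.C r * Polynomial.monomial 1 x
        rw [Polynomial.C_mul_monomial]
      rw [h0, map_mul]
      exact Subalgebra.mul_mem _ (cls_algebraMap k g hpos r) hx'
  have h1 := hc
  rw [pow_one] at h1
  exact (h c (max_le_span n g hfin h1)).2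

include hfin in
theorem cls_mon (d : ℕ) : ∀ (a : semigroupRing k (AddSubmonoid.closure (Set.range g)))
    (ha : a ∈ maxIdeal k (AddSubmonoid.closure (Set.range g)) ^ d),
    cls k g (reesMon _ d a ha) ∈ (toGr k g hpos).range := by
  induction d with
  | zero =>
    intro a ha
    have h0 : reesMon (maxIdeal k (AddSubmonoid.closure (Set.range g))) 0 a ha =
        algebraMap _ _ a := by
      apply Subtype.ext
      rfl
    rw [h0]
    exact cls_algebraMap k g hpos a
  | succ d ih =>
    intro a ha
    have h : ∃ ha : a ∈ maxIdeal k (AddSubmonoid.closure (Set.range g)) ^ (d + 1),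
        cls k g (reesMon _ (d + 1) a ha) ∈ (toGr k g hpos).range := by
      have ha' := ha
      rw [pow_succ] at ha'
      refine Submodule.mul_induction_on ha' ?_ ?_
      · intro b hb c hc
        have hbc : b * c ∈ maxIdeal k (AddSubmonoid.closure (Set.range g)) ^ (d + 1) := by
          rw [pow_succ]
          exact Ideal.mul_mem_mul hb hc
        have hc1 : c ∈ maxIdeal k (AddSubmonoid.closure (Set.range g)) ^ 1 := by
          rw [pow_one]
          exact hc
        have h0 : reesMon (maxIdeal k (AddSubmonoid.closure (Set.range g))) (d + 1) (b * c) hbc =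
            reesMon _ d b hb * reesMon _ 1 c hc1 := by
          apply Subtype.ext
          show Polynomial.monomial (d + 1) (b * c) =
            Polynomial.monomial d b * Polynomial.monomial 1 c
          rw [Polynomial.monomial_mul_monomial]
        refine ⟨hbc, ?_⟩
        rw [h0, map_mul]
        exact Subalgebra.mul_mem _ (ih b hb) (cls_one k g hpos hfin c hc1)
      · rintro x y ⟨hx, hx'⟩ ⟨hy, hy'⟩
        refine ⟨Ideal.add_mem _ hx hy, ?_⟩
        have h0 : reesMon (maxIdeal k (AddSubmonoid.closure (Set.range g))) (d + 1) (x + y)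
            (Ideal.add_mem _ hx hy) = reesMon _ (d + 1) x hx + reesMon _ (d + 1) y hy := by
          apply Subtype.ext
          show Polynomial.monomial (d + 1) (x + y) =
            Polynomial.monomial (d + 1) x + Polynomial.monomial (d + 1) y
          rw [map_add]
        rw [h0, map_add]
        exact Subalgebra.add_mem _ hx' hy'
    exact h.2

include hfin in
theorem toGr_surjective : Function.Surjective (toGr k g hpos) := by
  intro x
  obtain ⟨F, rfl⟩ := Ideal.Quotient.mk_surjective x
  have h1 : F = ∑ d ∈ (F.1).support, reesMon _ d (F.1.coeff d)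
      ((mem_reesAlgebra_iff _ _).1 F.2 d) := by
    apply Subtype.ext
    rw [AddSubmonoidClass.coe_finsetSum]
    exact F.1.as_sum_support
  have h2 : (Ideal.Quotient.mk _ F :
      AssocGraded (maxIdeal k (AddSubmonoid.closure (Set.range g)))) ∈
        (toGr k g hpos).range := by
    rw [h1, map_sum]
    exact Subalgebra.sum_mem _ fun d _ => cls_mon k g hpos hfin d _ _
  exact h2

end Pool.Agent.HSG
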